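import Pool.Agent.Helper58.SU.StQ

/-!
# Project SU (MP_b454d1_nt), module MNQS: main term in short windows
-/

set_option autoImplicit false

namespace Pool.Agent.Helper29.SU

open Finset ArithmeticFunction
open Pool.Agent.Helper48.BK (ex th Sx)
open Pool.Agent.Helper23.GK
open Pool.Agent.Helper58.SU

lemma cR_congr_MNQS (q : ℕ) (m n : ℤ) (h : (q : ℤ) ∣ m - n) : cR q m = cR q n := by
  unfold cR
  congr 1
  ext d
  rw [Finset.mem_filter, Finset.mem_filter]
  refine and_congr_right fun hd => ?_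
  have h1 : (d : ℤ) ∣ q := by exact_mod_cast (Nat.mem_divisors.1 hd).1
  have h2 : (d : ℤ) ∣ m - n := h1.trans h
  exact (dvd_iff_dvd_of_dvd_sub h2)

lemma one_q_MNQS (q N y h : ℕ) (hq : 1 ≤ q) (hH : y + h < N) (hR : StRam) :
    ∑ n ∈ Ioc y (y + h), (cR q n : ℝ) * th (N - n) =
      ∑ u ∈ range q, (cR q ((N : ℤ) - u) : ℝ) * dsc (N - (y + h) - 1) h q u +
        (h : ℝ) / Nat.totient q * ((moebius q : ℝ) * (cR q N : ℝ)) := by
  have h1 : ∑ n ∈ Ioc y (y + h), (cR q n : ℝ) * th (N - n) =
      ∑ m ∈ Ioc (N - (y + h) - 1) (N - (y + h) - 1 + h), (cR q ((N : ℤ) - m) : ℝ) * th m := by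
    refine Finset.sum_bij' (fun n _ => N - n) (fun m _ => N - m) ?_ ?_ ?_ ?_ ?_
    · intro n hn
      rw [Finset.mem_Ioc] at hn
      rw [Finset.mem_Ioc]
      omega
    · intro m hm
      rw [Finset.mem_Ioc] at hm
      rw [Finset.mem_Ioc]
      omega
    · intro n hn
      rw [Finset.mem_Ioc] at hn
      omega
    · intro m hm
      rw [Finset.mem_Ioc] at hm
      omega
    · intro n hn
      rw [Finset.mem_Ioc] at hn
      have : (N : ℤ) - ((N - n : ℕ) : ℤ) = n := by omega
      rw [this]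
  rw [h1, ← Finset.sum_fiberwise_of_maps_to
    (s := Ioc (N - (y + h) - 1) (N - (y + h) - 1 + h)) (t := range q) (g := fun m => m % q)]
  · have h2 : ∀ u ∈ range q, ∑ m ∈ (Ioc (N - (y + h) - 1) (N - (y + h) - 1 + h)).filter
          (fun m => m % q = u),
        (cR q ((N : ℤ) - m) : ℝ) * th m =
          (cR q ((N : ℤ) - u) : ℝ) * dsc (N - (y + h) - 1) h q u +
        (h : ℝ) / Nat.totient q * (if Nat.Coprime u q then (cR q ((N : ℤ) - u) : ℝ) else 0) := by
      intro u hu
      rw [Finset.mem_range] at hu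
      have h3 : (Ioc (N - (y + h) - 1) (N - (y + h) - 1 + h)).filter (fun m => m % q = u) =
          (Ioc (N - (y + h) - 1) (N - (y + h) - 1 + h)).filter (fun m => m ≡ u [MOD q]) := by
        ext m
        simp only [Finset.mem_filter]
        refine and_congr_right fun _ => ?_
        unfold Nat.ModEq
        rw [Nat.mod_eq_of_lt hu]
      have h4 : ∑ m ∈ (Ioc (N - (y + h) - 1) (N - (y + h) - 1 + h)).filter (fun m => m % q = u),
          (cR q ((N : ℤ) - m) : ℝ) * th m =
          (cR q ((N : ℤ) - u) : ℝ) *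
            ∑ m ∈ (Ioc (N - (y + h) - 1) (N - (y + h) - 1 + h)).filter (fun m => m ≡ u [MOD q]),
            th m := by
        rw [Finset.mul_sum, h3]
        refine Finset.sum_congr rfl fun m hm => ?_
        rw [Finset.mem_filter] at hm
        have h5 : cR q ((N : ℤ) - m) = cR q ((N : ℤ) - u) := by
          apply cR_congr_MNQS
          have h6 := (Nat.modEq_iff_dvd).1 hm.2
          rw [show (N : ℤ) - m - (N - u) = u - m by ring]
          exact h6
        rw [h5]
      rw [h4]
      unfold dsc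
      split_ifs
      · ring
      · ring
    rw [Finset.sum_congr rfl h2, Finset.sum_add_distrib]
    congr 1
    rw [← Finset.mul_sum, ← Finset.sum_filter]
    congr 1
    have h7 := hR.2.2.1 q N hq
    exact_mod_cast h7
  · intro m _
    rw [Finset.mem_range]
    exact Nat.mod_lt _ hq

/-- MNQS. -/
theorem hMNQS (hR : StRam) : StMnqs := by
  intro Q N y h hH
  have h1 : ∑ n ∈ Ioc y (y + h), LQ Q n * th (N - n) =
      ∑ q ∈ Icc 1 Q, (moebius q : ℝ) / (Nat.totient q : ℝ) *
        ∑ n ∈ Ioc y (y + h), (cR q n : ℝ) * th (N - n) := by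
    unfold LQ
    rw [Finset.sum_congr rfl fun n _ => Finset.sum_mul _ _ _, Finset.sum_comm]
    refine Finset.sum_congr rfl fun q _ => ?_
    rw [Finset.mul_sum]
    refine Finset.sum_congr rfl fun n _ => ?_
    ring
  have h2 : (h : ℝ) * SQ Q N = ∑ q ∈ Icc 1 Q, (moebius q : ℝ) / (Nat.totient q : ℝ) *
      ((h : ℝ) / Nat.totient q * ((moebius q : ℝ) * (cR q N : ℝ))) := by
    unfold SQ
    rw [Finset.mul_sum]
    refine Finset.sum_congr rfl fun q _ => ?_
    ring
  rw [h1, h2, ← Finset.sum_sub_distrib]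
  refine (Finset.abs_sum_le_sum_abs _ _).trans (Finset.sum_le_sum fun q hq => ?_)
  rw [Finset.mem_Icc] at hq
  rw [one_q_MNQS q N y h hq.1 hH hR, mul_add, add_sub_cancel_right, abs_mul]
  have hphi : (0 : ℝ) < Nat.totient q := by
    exact_mod_cast Nat.totient_pos.2 hq.1
  have h3 : |(moebius q : ℝ) / (Nat.totient q : ℝ)| ≤ 1 / Nat.totient q := by
    rw [abs_div, abs_of_pos hphi]
    apply div_le_div_of_nonneg_right _ hphi.le
    have := abs_moebius_le_one (n := q)
    exact_mod_cast this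
  have h4 : |∑ u ∈ range q, (cR q ((N : ℤ) - u) : ℝ) * dsc (N - (y + h) - 1) h q u| ≤
      Nat.totient q * ∑ u ∈ range q, |dsc (N - (y + h) - 1) h q u| := by
    refine (Finset.abs_sum_le_sum_abs _ _).trans ?_
    rw [Finset.mul_sum]
    refine Finset.sum_le_sum fun u _ => ?_
    rw [abs_mul]
    apply mul_le_mul_of_nonneg_right _ (abs_nonneg _)
    have := hR.2.1 q ((N : ℤ) - u) hq.1
    exact_mod_cast this
  calc _ ≤ 1 / (Nat.totient q : ℝ) *
        (Nat.totient q * ∑ u ∈ range q, |dsc (N - (y + h) - 1) h q u|) :=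
        mul_le_mul h3 h4 (abs_nonneg _) (by positivity)
    _ = _ := by field_simp

end Pool.Agent.Helper29.SU
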