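import Pool.Agent.Helper83.SU.St

/-!
# Project SU (MP_f663dd_lc), module S3: common limit points
-/

set_option autoImplicit false

namespace Pool.Agent.Helper29.SU

open Pool.Agent.Helper83.SU Pool.Agent.Helper83.CK Cardinal Set
universe u

/-- Module S3. -/
theorem mS3 : StS3.{u} := by
  intro α _ _ k A D δ hk h1 h2 h3 h4 ξ hξ
  classical
  have hstep : ∀ x : {x : α // x ∈ A}, ∃ y : {x : α // x ∈ A}, ∃ c ∈ D, x.1 < c ∧ c < y.1 := by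
    intro x
    obtain ⟨c, hc, hxc, hcδ⟩ := h4 x.1 (h2 x.1 x.2)
    obtain ⟨y, hy, hcy⟩ := h3 c hcδ
    exact ⟨⟨y, hy⟩, c, hc, hxc, hcy⟩
  choose f c hcD hxc hcf using hstep
  obtain ⟨a0, ha0, hξa⟩ := h3 ξ hξ
  obtain ⟨a, ha00, has⟩ : ∃ a : ℕ → {x : α // x ∈ A}, a 0 = ⟨a0, ha0⟩ ∧ ∀ n, a (n + 1) = f (a n) :=
    ⟨fun n => Nat.rec ⟨a0, ha0⟩ (fun _ x => f x) n, rfl, fun _ => rfl⟩
  have hX : #(range fun n => (a n).1 : Set α) < k :=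
    lt_of_le_of_lt (Set.Countable.le_aleph0 (Set.countable_range _)) hk
  have hXA : (range fun n => (a n).1) ⊆ A := by
    rintro _ ⟨n, rfl⟩
    exact (a n).2
  obtain ⟨as, hasA, has'⟩ := h1 _ hXA hX
  have hne : {g : α | ∀ n, (a n).1 < g}.Nonempty := ⟨as, fun n => has' _ ⟨n, rfl⟩⟩
  obtain ⟨γ, hγ, hmin⟩ : ∃ γ : α, (∀ n, (a n).1 < γ) ∧ ∀ g : α, (∀ n, (a n).1 < g) → γ ≤ g := by
    refine ⟨(wellFounded_lt (α := α)).min _ hne, (wellFounded_lt (α := α)).min_mem _ hne, ?_⟩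
    intro g hg
    exact (wellFounded_lt (α := α)).min_le (s := {g : α | ∀ n, (a n).1 < g}) hg
  have hcof : ∀ ξ' < γ, ∃ n, ξ' ≤ (a n).1 := by
    intro ξ' hξ'
    by_contra hcon
    push Not at hcon
    exact absurd (hmin ξ' hcon) (not_le.2 hξ')
  have hξγ : ξ < γ := by
    have := hγ 0
    rw [ha00] at this
    exact lt_trans hξa this
  refine ⟨γ, lt_of_le_of_lt (hmin as fun n => has' _ ⟨n, rfl⟩) (h2 as hasA), hξγ,
    ⟨⟨ξ, hξγ⟩, ?_⟩, ⟨⟨ξ, hξγ⟩, ?_⟩⟩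
  · intro ξ' hξ'
    obtain ⟨n, hn⟩ := hcof ξ' hξ'
    refine ⟨c (a n), hcD _, lt_of_le_of_lt hn (hxc _), lt_trans (hcf _) ?_⟩
    rw [← has n]
    exact hγ _
  · intro ξ' hξ'
    obtain ⟨n, hn⟩ := hcof ξ' hξ'
    refine ⟨(a (n + 1)).1, (a (n + 1)).2, lt_of_le_of_lt hn ?_, hγ _⟩
    rw [has n]
    exact lt_trans (hxc _) (hcf _)

end Pool.Agent.Helper29.SU
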